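import Pool.Agent.ASO.Stmts7

/-!
# Squad ASO, row CMB: the comparison block with prescribed numbers `U` modulo `ℓ ^ k`
-/

open scoped BigOperators

noncomputable section

namespace Pool.Agent.PP.SO.H15

open Pool.Agent.Helper51_AWC Pool.Agent.Helper79_WRA Pool.Agent.PP Pool.Agent.PP.KF
open Pool.Agent.PP.K9 Pool.Agent.PP.K9.H97 Pool.Agent.PP.H75 Pool.Agent.PP.T3

attribute [local instance] Ideal.Quotient.field

theorem int_Rl (ℓ : ℕ) [Fact ℓ.Prime] (z : ℤ) : (z : ℚ) ∈ SOR.Rl ℓ := intCast_mem _ z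

/-- an element of `Rl ℓ` is an integer modulo `ℓ ^ N` -/
theorem approx (ℓ : ℕ) [hℓ : Fact ℓ.Prime] (N : ℕ) (q₀ : ℚ) (hq : q₀ ∈ SOR.Rl ℓ) :
    ∃ a : ℤ, ∃ q ∈ SOR.Rl ℓ, q₀ - a = ℓ ^ N * q := by
  have hnd : ¬ ℓ ∣ q₀.den := hq
  have hcop : IsCoprime (q₀.den : ℤ) ((ℓ : ℤ) ^ N) := by
    apply IsCoprime.pow_right
    rw [Nat.isCoprime_iff_coprime]
    exact ((Nat.Prime.coprime_iff_not_dvd hℓ.out).2 hnd).symm
  obtain ⟨u, v, huv⟩ := hcop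
  refine ⟨q₀.num * u, q₀ * v, (SOR.Rl ℓ).mul_mem hq (int_Rl ℓ v), ?_⟩
  have h1 : q₀ * q₀.den = q₀.num := Rat.mul_den_eq_num q₀
  have h2 : (u : ℚ) * q₀.den + v * ℓ ^ N = 1 := by exact_mod_cast huv
  have h3 : ((q₀.num * u : ℤ) : ℚ) = q₀ * (1 - v * ℓ ^ N) := by
    push_cast
    rw [← h1, ← h2]
    ring
  rw [h3]
  ring

open Classical in
/-- the integer which approximates `x` -/
def nn (ℓ k : ℕ) [Fact ℓ.Prime] (x : ℚ) : ℤ :=
  if h : ∃ n : ℤ, (ℓ : ℤ) ∣ n - 1 ∧ ∃ q ∈ SOR.Rl ℓ, x - n = ℓ ^ (k + 1) * q then h.choose else 1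

theorem nn_dvd (ℓ k : ℕ) [Fact ℓ.Prime] (x : ℚ) : (ℓ : ℤ) ∣ nn ℓ k x - 1 := by
  unfold nn
  split_ifs with h
  · exact h.choose_spec.1
  · rw [sub_self]
    exact dvd_zero _

theorem nn_spec (ℓ k : ℕ) [Fact ℓ.Prime] (x : ℚ) (hx : ∃ q ∈ SOR.Rl ℓ, x = 1 + ℓ * q) :
    ∃ q ∈ SOR.Rl ℓ, x - nn ℓ k x = ℓ ^ (k + 1) * q := by
  have h : ∃ n : ℤ, (ℓ : ℤ) ∣ n - 1 ∧ ∃ q ∈ SOR.Rl ℓ, x - n = ℓ ^ (k + 1) * q := by
    obtain ⟨q₀, hq₀, rfl⟩ := hx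
    obtain ⟨a, q, hq, hqa⟩ := approx ℓ k q₀ hq₀
    refine ⟨1 + ℓ * a, ⟨a, by ring⟩, q, hq, ?_⟩
    push_cast
    have : q₀ = a + ℓ ^ k * q := by rw [← hqa]; ring
    rw [this]
    ring
  unfold nn
  rw [dif_pos h]
  exact h.choose_spec.2

theorem cmb (cmg : CmgStmt) (cmi : CmiStmt) (cmo : CmoStmt) : CmbStmt := by
  intro ℓ hℓ M _ hM hl2 V₀ _ _ hv hc E₀ hE k U hUt hU hUi
  classical
  obtain ⟨G, iG, iF, π, ι, ε, hπ, hk, h1, h2, h3, h4, h5⟩ := cmg ℓ hl2 V₀ hv hc E₀ (k + 1)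
    (fun W => if W = ⊥ then 1 else nn ℓ k (U W)) (by
      intro W
      by_cases hW : W = ⊥
      · rw [if_pos hW, sub_self]
        exact dvd_zero _
      · rw [if_neg hW]
        exact nn_dvd ℓ k (U W)) (by
      intro W φ hφ
      by_cases hW : W = ⊥
      · subst hW
        rw [Subgroup.map_bot]
      · have hW2 : ¬ W.map (φ : V₀ ≃* V₀).toMonoidHom = ⊥ := by
          intro h
          apply hW
          rw [Subgroup.map_eq_bot_iff] at h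
          rw [eq_bot_iff]
          refine h.trans ?_
          intro x hx
          have hx1 : (φ : V₀ ≃* V₀) x = 1 := hx
          rw [Subgroup.mem_bot]
          exact (MulEquiv.map_eq_one_iff (φ : V₀ ≃* V₀)).1 hx1
        rw [if_neg hW, if_neg hW2, hUi W hW φ hφ])
  obtain ⟨B, hBi, hSb, hD, hS, hn, hEl, hDg⟩ := cmi ℓ M hM V₀ hv hc E₀ hE G π ι ε hπ hk h1 h2 h3 h4
  obtain ⟨h6, h7⟩ := cmo ℓ V₀ hv hc E₀ G π ι hπ hk h1 h4
  refine ⟨G, iG, iF, B, hSb, hn, hEl, hD, hS, ?_⟩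
  intro W hW hst
  obtain ⟨h8, h9⟩ := h7 W hst
  subst hBi
  have hl0 : (ℓ : ℚ) ≠ 0 := Nat.cast_ne_zero.2 hℓ.out.ne_zero
  have hT : (Nat.card (B.C ⊤) : ℚ) = (ℓ : ℚ) ^ 2 := by
    have : Nat.card (B.C ⊤) = ℓ ^ 2 := h6
    rw [this]
    push_cast
    rfl
  have hC : (Nat.card (B.C W) : ℚ) =
      (Nat.card (π.ker ⊓ Subgroup.centralizer (W.map B.i : Set G) : Subgroup G) : ℚ) *
        (ℓ : ℚ) ^ 2 := by
    have : Nat.card (B.C W) =
      Nat.card (π.ker ⊓ Subgroup.centralizer (W.map B.i : Set G) : Subgroup G) * ℓ ^ 2 := h8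
    rw [this]
    push_cast
    rfl
  have hUW : B.U W =
      (Nat.card (π.ker ⊓ Subgroup.centralizer (W.map B.i : Set G) : Subgroup G) : ℚ) := by
    unfold Bk.U
    rw [hS, hD, hD, hT, hC]
    field_simp
    push_cast
    ring
  refine ⟨hDg W hst, ?_, ?_⟩
  · obtain ⟨z, hz⟩ := h9
    refine ⟨z, int_Rl ℓ z, ?_⟩
    rw [hUW]
    have : ((Nat.card (π.ker ⊓ Subgroup.centralizer (W.map B.i : Set G) : Subgroup G) : ℤ) : ℚ) -
        1 = ((ℓ * z : ℤ) : ℚ) := by rw [← hz]; push_cast; rfl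
    push_cast at this
    rw [← this]
    ring
  · by_cases hWt : W = ⊤
    · subst hWt
      refine ⟨0, (SOR.Rl ℓ).zero_mem, ?_⟩
      have : B.U ⊤ = 1 := by
        unfold Bk.U
        rw [hS, hD, hT]
        field_simp
        push_cast
        ring
      rw [this, hUt, sub_self, mul_zero]
    · obtain ⟨z, hz⟩ := h5 W hW hWt
      rw [if_neg hW] at hz
      obtain ⟨q, hq, hq2⟩ := nn_spec ℓ k (U W) (hU W hW)
      refine ⟨ℓ * (z - q), (SOR.Rl ℓ).mul_mem (natCast_mem _ ℓ)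
        ((SOR.Rl ℓ).sub_mem (int_Rl ℓ z) hq), ?_⟩
      rw [hUW]
      have hz2 : ((Nat.card (π.ker ⊓ Subgroup.centralizer (W.map B.i : Set G) : Subgroup G) : ℤ) :
          ℚ) - (nn ℓ k (U W) : ℚ) = (((ℓ ^ (k + 1) : ℕ) : ℤ) * z : ℤ) := by
        rw [← hz]
        push_cast
        rfl
      push_cast at hz2
      have e : (Nat.card (π.ker ⊓ Subgroup.centralizer (W.map B.i : Set G) : Subgroup G) : ℚ) -
          U W = ((Nat.card (π.ker ⊓ Subgroup.centralizer (W.map B.i : Set G) : Subgroup G) : ℚ) -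
            (nn ℓ k (U W) : ℚ)) - (U W - nn ℓ k (U W)) := by ring
      rw [e, hz2, hq2]
      ring

end Pool.Agent.PP.SO.H15
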