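import Pool.Agent.ASO.StmtsH
import Pool.Agent.Helper30_KF.Mul
import Pool.Agent.Helper25_K9.PRG

/-!
# Squad ASO, row HL12: the sums `L1`, `L2`
-/

open scoped BigOperators

noncomputable section

namespace Pool.Agent.PP.SO.H15

open Pool.Agent.Helper51_AWC Pool.Agent.Helper79_WRA Pool.Agent.PP Pool.Agent.PP.KF
open Pool.Agent.PP.K9 Pool.Agent.PP.K9.H97 Pool.Agent.PP.H75 Pool.Agent.PP.T3

attribute [local instance] Ideal.Quotient.field

/-! ## Rational numbers -/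

theorem rat_Rl {ℓ : ℕ} [Fact ℓ.Prime] (M : Ideal (integralClosure ℤ ℂ)) [M.IsMaximal]
    (hM : (ℓ : integralClosure ℤ ℂ) ∈ M) (q : ℚ) (h : (q : ℂ) ∈ RM M) : q ∈ SOR.Rl ℓ := by
  show ¬ ℓ ∣ q.den
  intro hd
  have h0 : ((q.den : ℕ) : FF M) = 0 := by
    obtain ⟨k, hk⟩ := hd
    have h1 : ((ℓ : ℕ) : FF M) = 0 := by
      have := (Ideal.Quotient.eq_zero_iff_mem (I := M)).2 hM
      rwa [map_natCast] at this
    rw [hk, Nat.cast_mul, h1, zero_mul]
  have hden : (q.den : ℂ) ≠ 0 := Nat.cast_ne_zero.2 q.den_nz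
  have h1 : ((q.num : ℤ) : ℂ) = (q.den : ℂ) * q := by
    rw [Rat.cast_def]
    field_simp
  have h2 := rr_mul (rr_nat (M := M) q.den).1 h
  rw [← h1, (rr_nat (M := M) q.den).2, h0, zero_mul, (rr_int (M := M) q.num).2] at h2
  have h3 : IsCoprime q.num (q.den : ℤ) := by
    rw [Int.isCoprime_iff_gcd_eq_one]
    exact q.reduced
  obtain ⟨a, b, hab⟩ := h3
  have h4 : ((a * q.num + b * (q.den : ℤ) : ℤ) : FF M) = ((1 : ℤ) : FF M) := by rw [hab]
  rw [Int.cast_add, Int.cast_mul, Int.cast_mul, h2, Int.cast_natCast, h0, mul_zero, mul_zero,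
    add_zero, Int.cast_one] at h4
  exact zero_ne_one h4

/-- the rational numbers -/
def QQ : Subring ℂ := (algebraMap ℚ ℂ).range

theorem mem_QQ {z : ℂ} : z ∈ QQ ↔ ∃ q : ℚ, z = q := by
  constructor
  · rintro ⟨q, hq⟩
    exact ⟨q, by rw [← hq]; rfl⟩
  · rintro ⟨q, rfl⟩
    exact ⟨q, rfl⟩

theorem geom_int (q i : ℕ) (ζ : ℂ) (hζ : ζ ^ q = 1) :
    ∃ z : ℤ, ∑ j ∈ Finset.range q, ζ ^ (i * j) = z := by
  by_cases h : ζ ^ i = 1
  · refine ⟨q, ?_⟩
    rw [Finset.sum_congr rfl (fun j _ => by rw [pow_mul, h, one_pow])]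
    simp
  · refine ⟨0, ?_⟩
    have h2 : (∑ j ∈ Finset.range q, ζ ^ (i * j)) * (ζ ^ i - 1) = 0 := by
      rw [Finset.sum_congr rfl (fun j _ => pow_mul ζ i j), geom_sum_mul, ← pow_mul, mul_comm i q,
        pow_mul, hζ, one_pow, sub_self]
    rcases mul_eq_zero.1 h2 with h3 | h3
    · rw [h3, Int.cast_zero]
    · exact absurd (sub_eq_zero.1 h3) h

theorem geom_int1 (q i : ℕ) (hq : 0 < q) (ζ : ℂ) (hζ : ζ ^ q = 1) :
    ∃ z : ℤ, ∑ j ∈ Finset.Ico 1 q, ζ ^ (i * j) = z := by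
  obtain ⟨z, hz⟩ := geom_int q i ζ hζ
  refine ⟨z - 1, ?_⟩
  rw [Finset.range_eq_Ico, Finset.sum_eq_sum_Ico_succ_bot hq, mul_zero, pow_zero, zero_add] at hz
  push_cast
  rw [← hz]
  ring

/-! ## Central elements of the centraliser -/

/-- a central element acts by a scalar -/
theorem cent_root {C : Type} [Group C] {θ : C → ℂ} (hθ : θ ∈ Irr C) {z : C}
    (hz : ∀ c, z * c = c * z) {q : ℕ} (hq : z ^ q = 1) :
    ∃ k : ℂ, k ^ q = 1 ∧ ∀ (j : ℕ) (c : C), θ (z ^ j * c) = k ^ j * θ c := by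
  obtain ⟨n, ρ, hρ, rfl⟩ := hθ
  obtain ⟨k, hk⟩ := schur_scalar ρ (ρ z) (by
    intro g
    have h1 : ρ z * ρ g = ρ g * ρ z := by rw [← map_mul, ← map_mul, hz]
    exact h1)
  have h1 : ∀ c, ρ.character (z * c) = k * ρ.character c := by
    intro c
    show LinearMap.trace ℂ _ (ρ (z * c)) = k * LinearMap.trace ℂ _ (ρ c)
    rw [map_mul, hk, smul_mul_assoc, map_smul, smul_eq_mul]
    rfl
  have h2 : ρ.character 1 ≠ 0 := irr_one_ne (mem_Irr_of_irreducible ρ)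
  have h3 : ∀ (j : ℕ) (c : C), ρ.character (z ^ j * c) = k ^ j * ρ.character c := by
    intro j
    induction j with
    | zero => intro c; rw [pow_zero, one_mul, pow_zero, one_mul]
    | succ j ih =>
      intro c
      rw [pow_succ', mul_assoc, h1, ih, pow_succ', mul_assoc]
  refine ⟨k, ?_, h3⟩
  have e := h3 q 1
  rw [hq, one_mul] at e
  exact mul_right_cancel₀ h2 (by rw [one_mul]; exact e.symm)

/-- the expansion of `χ(u ^ j b^)` in the powers of `ζ ^ j` -/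
theorem gv_exp (M : Ideal (integralClosure ℤ ℂ)) [M.IsMaximal] (G : Type) [Group G]
    [Finite G] (u : G) (q : ℕ) (hq : 0 < q) (hu : u ^ q = 1) (b : G → FF M)
    (ζ : ℂ) (hζ : IsPrimitiveRoot ζ q) (χ : G → ℂ) (hχ : χ ∈ Irr G) :
    ∃ m : ℕ → ℤ, ∀ j : ℕ, gv M (Cu u) (u ^ j) b χ =
      ∑ i ∈ Finset.range q, (m i : ℂ) * ζ ^ (i * j) := by
  classical
  have := Fintype.ofFinite G
  have := Fintype.ofFinite (Cu u)
  obtain ⟨b', hb'⟩ : ∃ b' : Cu u → FF M, b' = fun t : Cu u => b t := ⟨_, rfl⟩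
  have hS : (IrrE M b').Finite := irr_finite'.subset (fun θ h => h.1)
  obtain ⟨uC, huC⟩ : ∃ uC : Cu u, (uC : G) = u :=
    ⟨⟨u, Subgroup.mem_centralizer_singleton_iff.2 rfl⟩, rfl⟩
  have hz : ∀ c : Cu u, uC * c = c * uC := by
    intro c
    apply Subtype.ext
    show (uC : G) * c = c * uC
    rw [huC]
    exact (Subgroup.mem_centralizer_singleton_iff.1 c.2).symm
  have hzq : uC ^ q = 1 := by
    apply Subtype.ext
    rw [Subgroup.coe_pow, huC, hu, Subgroup.coe_one]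
  have h1 : ∀ θ ∈ hS.toFinset, ∃ i : ℕ, i < q ∧
      ∀ (j : ℕ) (c : Cu u), θ (uC ^ j * c) = (ζ ^ i) ^ j * θ c := by
    intro θ hθ
    have hθ' : θ ∈ Irr (Cu u) := (hS.mem_toFinset.1 hθ).1
    obtain ⟨k, hk, hkj⟩ := cent_root hθ' hz hzq
    have : NeZero q := ⟨hq.ne'⟩
    obtain ⟨i, hi, rfl⟩ := hζ.eq_pow_of_pow_eq_one hk
    exact ⟨i, hi, hkj⟩
  have h2 : ∀ θ ∈ hS.toFinset, ∃ m : ℤ,
      (Nat.card (Cu u) : ℂ)⁻¹ * ∑ c : Cu u, χ c * θ c⁻¹ = m := by
    intro θ hθ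
    exact KF.H30.mult_int (Cu u) hχ (hS.mem_toFinset.1 hθ).1
  have h3 : ∀ θ ∈ hS.toFinset, ∃ d : ℕ, θ 1 = d := by
    intro θ hθ
    obtain ⟨d, _, hd⟩ := irr_one (hS.mem_toFinset.1 hθ).1
    exact ⟨d, hd⟩
  choose! ix hix hix2 using h1
  choose! mu hmu using h2
  choose! dg hdg using h3
  refine ⟨fun i => ∑ θ ∈ hS.toFinset.filter (fun θ => ix θ = i), (dg θ : ℤ) * mu θ, ?_⟩
  intro j
  have e1 : gv M (Cu u) (u ^ j) b χ = ∑ c : Cu u, eh M b' c * χ (u ^ j * c) := by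
    rw [gv, gbv, finsum_eq_sum_of_fintype, hb']
  have e2 : ∀ c : Cu u, eh M b' c =
      (Nat.card (Cu u) : ℂ)⁻¹ * ∑ θ ∈ hS.toFinset, (dg θ : ℂ) * θ c⁻¹ := by
    intro c
    rw [eh, finsum_mem_eq_finite_toFinset_sum _ hS]
    congr 1
    refine Finset.sum_congr rfl fun θ hθ => ?_
    rw [hdg θ hθ]
  have e3 : ∀ θ ∈ hS.toFinset, (Nat.card (Cu u) : ℂ)⁻¹ * ∑ c : Cu u, θ c⁻¹ * χ (u ^ j * c) =
      mu θ * ζ ^ (ix θ * j) := by
    intro θ hθ
    rw [← hmu θ hθ, ← Equiv.sum_comp (Equiv.mulLeft (uC ^ j))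
      (fun c : Cu u => χ c * θ c⁻¹), mul_assoc, Finset.sum_mul]
    refine congrArg ((Nat.card (Cu u) : ℂ)⁻¹ * ·) (Finset.sum_congr rfl fun c _ => ?_)
    show θ c⁻¹ * χ (u ^ j * c) = χ ((uC ^ j * c : Cu u) : G) * θ (uC ^ j * c)⁻¹ * ζ ^ (ix θ * j)
    have a1 : ((uC ^ j * c : Cu u) : G) = u ^ j * c := by
      rw [Subgroup.coe_mul, Subgroup.coe_pow, huC]
    have hcomm : ∀ (c : Cu u), uC ^ j * c = c * uC ^ j := fun c =>
      (Commute.pow_left (hz c) j)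
    have a2 : θ c⁻¹ = (ζ ^ (ix θ)) ^ j * θ (uC ^ j * c)⁻¹ := by
      rw [← hix2 θ hθ, mul_inv_rev, ← mul_assoc, hcomm c⁻¹, mul_assoc, mul_inv_cancel, mul_one]
    rw [a1, a2, pow_mul]
    ring
  rw [e1]
  simp only [e2]
  have e4 : ∑ c : Cu u, (Nat.card (Cu u) : ℂ)⁻¹ * (∑ θ ∈ hS.toFinset, (dg θ : ℂ) * θ c⁻¹) *
      χ (u ^ j * c) = ∑ θ ∈ hS.toFinset, (dg θ : ℂ) * ((Nat.card (Cu u) : ℂ)⁻¹ *
        ∑ c : Cu u, θ c⁻¹ * χ (u ^ j * c)) := by
    simp_rw [Finset.mul_sum, Finset.sum_mul]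
    rw [Finset.sum_comm]
    refine Finset.sum_congr rfl fun θ _ => Finset.sum_congr rfl fun c _ => ?_
    ring
  rw [e4]
  rw [Finset.sum_congr rfl (fun θ hθ => by rw [e3 θ hθ])]
  rw [← Finset.sum_fiberwise_of_maps_to (s := hS.toFinset) (t := Finset.range q) (g := ix)
    (fun θ hθ => Finset.mem_range.2 (hix θ hθ))]
  refine Finset.sum_congr rfl fun i _ => ?_
  rw [Int.cast_sum, Finset.sum_mul]
  refine Finset.sum_congr rfl fun θ hθ => ?_
  rw [(Finset.mem_filter.1 hθ).2]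
  push_cast
  ring

/-! ## The power map -/

section pm

variable {G : Type} [Group G]

theorem reg_pow_fix (ℓ N : ℕ) (h : ∀ g : G, Reg ℓ g → g ^ N = g) (k : ℕ) (g : G)
    (hg : Reg ℓ g) : g ^ N ^ k = g := by
  induction k with
  | zero => simp
  | succ k ih => rw [pow_succ, pow_mul, ih, h g hg]

/-- a sum over a finite set which is permuted by the power map -/
theorem sum_pm [Finite G] {N : ℕ} (hN : N.Coprime (Nat.card G)) (S : Set (G → ℂ)) (hS : S.Finite)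
    (h : ∀ χ ∈ S, (fun g => χ (g ^ N)) ∈ S) (F : (G → ℂ) → ℂ) (k : ℕ) :
    ∑ᶠ χ ∈ S, F (fun g => χ (g ^ N ^ k)) = ∑ᶠ χ ∈ S, F χ := by
  have hinj : Function.Injective (fun (χ : G → ℂ) (g : G) => χ (g ^ N)) := by
    intro χ ψ hχψ
    funext g
    obtain ⟨m, hm⟩ := exists_pow_eq_self_of_coprime
      (show N.Coprime (orderOf g) from Nat.Coprime.coprime_dvd_right (orderOf_dvd_natCard g) hN)
    have h1 := congrFun hχψ (g ^ m)
    simp only at h1
    rw [← pow_mul, mul_comm, pow_mul, hm] at h1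
    exact h1
  have hbij : Set.BijOn (fun (χ : G → ℂ) (g : G) => χ (g ^ N)) S S := by
    have h1 : Set.MapsTo (fun (χ : G → ℂ) (g : G) => χ (g ^ N)) S S := h
    exact (Set.Finite.injOn_iff_bijOn_of_mapsTo hS h1).1 hinj.injOn
  induction k with
  | zero => simp only [pow_zero, pow_one]
  | succ k ih =>
    rw [← ih]
    refine finsum_mem_eq_of_bijOn (fun (χ : G → ℂ) (g : G) => χ (g ^ N)) hbij ?_
    intro χ _
    congr 1
    funext g
    rw [pow_succ, pow_mul]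

theorem pm_mem {N : ℕ} (S : Set (G → ℂ)) (h : ∀ χ ∈ S, (fun g => χ (g ^ N)) ∈ S) (k : ℕ) :
    ∀ χ ∈ S, (fun g => χ (g ^ N ^ k)) ∈ S := by
  induction k with
  | zero =>
    intro χ hχ
    simpa using hχ
  | succ k ih =>
    intro χ hχ
    have h1 := ih _ (h χ hχ)
    have e : (fun g => (fun g => χ (g ^ N)) (g ^ N ^ k)) = fun g => χ (g ^ N ^ (k + 1)) := by
      funext g
      show χ ((g ^ N ^ k) ^ N) = _
      rw [← pow_mul, ← pow_succ]
    rwa [e] at h1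

end pm

/-! ## The row -/

theorem zp_eq {V₀ : Type} [CommGroup V₀] {ℓ : ℕ} [Fact ℓ.Prime] (hv : ∀ v : V₀, v ^ ℓ = 1)
    (c : V₀) {j : ℕ} (hj : ¬ ℓ ∣ j) : Subgroup.zpowers (c ^ j) = Subgroup.zpowers c := by
  have hcop : j.Coprime (orderOf c) := by
    have h1 : j.Coprime ℓ := ((Nat.Prime.coprime_iff_not_dvd (Fact.out : ℓ.Prime)).2 hj).symm
    exact Nat.Coprime.coprime_dvd_right (orderOf_dvd_of_pow_eq_one (hv c)) h1
  apply le_antisymm
  · rw [Subgroup.zpowers_le]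
    exact Subgroup.npow_mem_zpowers c j
  · obtain ⟨m, hm⟩ := exists_pow_eq_self_of_coprime hcop
    rw [Subgroup.zpowers_le]
    have h1 : (c ^ j) ^ m ∈ Subgroup.zpowers (c ^ j) := Subgroup.npow_mem_zpowers (c ^ j) m
    rwa [hm] at h1

theorem hl12 (wbo : WboStmt) (hlnk : HLnkStmt) (hfce : HFceStmt) (homr : HOmrStmt)
    (prm : T3.PrmStmt) (rtc : T3.RtcStmt) : HL12Stmt := by
  intro ℓ hℓ M hMm hM V₀ _ _ hv E₀ G _ _ B hB
  classical
  have hl : 0 < ℓ := hℓ.out.pos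
  have hS : (IrrE M B.e).Finite := by
    have := Fintype.ofFinite G
    exact irr_finite'.subset (fun θ h => h.1)
  have hone : ∀ χ ∈ IrrE M B.e, cv (fc B ⊥ 1) χ = 1 := (hfce ℓ M hM V₀ E₀ G B hB).2
  have hsig := (hfce ℓ M hM V₀ E₀ G B hB).1
  have hL : ∀ c : V₀, L2 B c 1 = L1 B c := by
    intro c
    unfold L2 L1
    refine finsum_mem_congr rfl fun χ hχ => ?_
    rw [hone χ hχ, mul_one]
  have hi : ∀ c : V₀, (B.i c) ^ ℓ = 1 := by
    intro c
    rw [← map_pow, hv, map_one]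
  -- the values at the powers
  have hval : ∀ (c : V₀) (j : ℕ), ¬ ℓ ∣ j → ∀ χ ∈ Irr G,
      cv (fc B ⊥ (c ^ j)) χ = Nat.card G *
        gv M (Cu (B.i c)) (B.i c ^ j) (B.b (Subgroup.zpowers c)) χ /
          (Nat.card (B.C (Subgroup.zpowers c)) * χ 1) := by
    intro c j hj χ hχ
    have h1 := (hlnk ℓ M hM V₀ E₀ G B hB (c ^ j)).2.2 χ hχ
    have h2 := (hlnk ℓ M hM V₀ E₀ G B hB (c ^ j)).1
    have h3 := (hlnk ℓ M hM V₀ E₀ G B hB c).1
    rw [zp_eq hv c hj] at h1 h2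
    rw [h1, h2, h3, map_pow]
  -- invariance
  have hinv : ∀ (c d : V₀) (j : ℕ), ¬ ℓ ∣ j → L2 B (c ^ j) (d ^ j) = L2 B c d := by
    intro c d j hj
    by_cases hl2 : ℓ = 2
    · subst hl2
      have hodd : ∀ x : V₀, x ^ j = x := by
        intro x
        obtain ⟨t, ht⟩ : ∃ t, j = 2 * t + 1 := by
          have : j % 2 = 1 := by omega
          exact ⟨j / 2, by omega⟩
        rw [ht, pow_succ, pow_mul, hv, one_pow, one_mul]
      rw [hodd, hodd]
    · obtain ⟨N, hN⟩ := prm ℓ hl2 G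
      obtain ⟨k, hk⟩ := hN.gen j hj
      obtain ⟨hrI, hrE⟩ := rtc ℓ M hM G N hN B.e hB.ld.blk.1
      have hcv : ∀ x : V₀, ∀ χ ∈ Irr G,
          cv (fc B ⊥ (x ^ j)) χ = cv (fc B ⊥ x) (fun g => χ (g ^ N ^ k)) := by
        intro x χ hχ
        have hχ' : (fun g => χ (g ^ N ^ k)) ∈ Irr G := pm_mem (Irr G) hrI k χ hχ
        have h1 := hval x 1 (fun h => hℓ.out.one_lt.ne' (Nat.dvd_one.1 h)) _ hχ'
        rw [pow_one, pow_one] at h1
        rw [hval x j hj χ hχ, h1]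
        have hlc := (hlnk ℓ M hM V₀ E₀ G B hB x).2.1
        have e1 : χ (1 ^ N ^ k) = χ 1 := by rw [one_pow]
        rw [e1]
        congr 2
        unfold gv gbv
        refine finsum_congr fun t => ?_
        by_cases ht : Reg ℓ (t : Cu (B.i x))
        · congr 1
          have ht2 : Reg ℓ (t : G) := by
            unfold Reg at ht ⊢
            rwa [Subgroup.orderOf_coe]
          have hcomm : Commute (B.i x) (t : G) :=
            (Subgroup.mem_centralizer_singleton_iff.1 t.2).symm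
          have e2 : (B.i x * (t : G)) ^ N ^ k = B.i x ^ j * t := by
            rw [hcomm.mul_pow, hk (B.i x) ⟨1, by rw [pow_one]; exact hi x⟩,
              reg_pow_fix ℓ N hN.reg k _ ht2]
          show χ (B.i x ^ j * (t : G)) = χ ((B.i x * (t : G)) ^ N ^ k)
          rw [e2]
        · letI := Fintype.ofFinite G
          letI : Fintype (Cu (B.i x)) := Fintype.ofFinite _
          rw [H25.eh_sing wbo ℓ M hM (fun t : Cu (B.i x) => B.b (Subgroup.zpowers x) t)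
            hlc.blk.blk.1 t ht, zero_mul, zero_mul]
      have h1 := sum_pm hN.cop (IrrE M B.e) hS hrE
        (fun χ => cv (fc B ⊥ c) χ * cv (fc B ⊥ d) χ) k
      unfold L2
      rw [← h1]
      refine finsum_mem_congr rfl fun χ hχ => ?_
      rw [hcv c χ hχ.1, hcv d χ hχ.1]
  -- rationality
  have hrat : ∀ c d : V₀, ∃ q : ℚ, L2 B c d = q := by
    intro c d
    have hζ : IsPrimitiveRoot (Complex.exp (2 * Real.pi * Complex.I / (ℓ : ℕ))) ℓ :=
      Complex.isPrimitiveRoot_exp _ hl.ne'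
    set ζ : ℂ := Complex.exp (2 * Real.pi * Complex.I / (ℓ : ℕ)) with hζdef
    have hj : ∀ j ∈ Finset.Ico 1 ℓ, ¬ ℓ ∣ j := by
      intro j hj h
      rw [Finset.mem_Ico] at hj
      exact absurd (Nat.le_of_dvd (by omega) h) (by omega)
    have h1 : ∑ j ∈ Finset.Ico 1 ℓ, L2 B (c ^ j) (d ^ j) ∈ QQ := by
      have h2 : ∀ j ∈ Finset.Ico 1 ℓ, L2 B (c ^ j) (d ^ j) =
          ∑ χ ∈ hS.toFinset, cv (fc B ⊥ (c ^ j)) χ * cv (fc B ⊥ (d ^ j)) χ := by
        intro j _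
        unfold L2
        rw [finsum_mem_eq_finite_toFinset_sum _ hS]
      rw [Finset.sum_congr rfl h2, Finset.sum_comm]
      refine Subring.sum_mem _ fun χ hχ => ?_
      have hχ' : χ ∈ IrrE M B.e := hS.mem_toFinset.1 hχ
      obtain ⟨m, hm⟩ := gv_exp M G (B.i c) ℓ hl (hi c) (B.b (Subgroup.zpowers c)) ζ hζ χ hχ'.1
      obtain ⟨m', hm'⟩ := gv_exp M G (B.i d) ℓ hl (hi d) (B.b (Subgroup.zpowers d)) ζ hζ χ hχ'.1
      obtain ⟨e, _, he⟩ := irr_one hχ'.1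
      choose z hz using fun i => geom_int1 ℓ i hl ζ hζ.pow_eq_one
      have h3 : ∑ j ∈ Finset.Ico 1 ℓ, cv (fc B ⊥ (c ^ j)) χ * cv (fc B ⊥ (d ^ j)) χ =
          ((Nat.card G : ℂ) / (Nat.card (B.C (Subgroup.zpowers c)) * e)) *
          ((Nat.card G : ℂ) / (Nat.card (B.C (Subgroup.zpowers d)) * e)) *
          ∑ a ∈ Finset.range ℓ, ∑ a' ∈ Finset.range ℓ,
            (m a : ℂ) * (m' a' : ℂ) * ((z (a + a') : ℤ) : ℂ) := by
        have h4 : ∀ j ∈ Finset.Ico 1 ℓ, cv (fc B ⊥ (c ^ j)) χ * cv (fc B ⊥ (d ^ j)) χ =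
            ((Nat.card G : ℂ) / (Nat.card (B.C (Subgroup.zpowers c)) * e)) *
            ((Nat.card G : ℂ) / (Nat.card (B.C (Subgroup.zpowers d)) * e)) *
            ∑ a ∈ Finset.range ℓ, ∑ a' ∈ Finset.range ℓ,
              (m a : ℂ) * (m' a' : ℂ) * ζ ^ ((a + a') * j) := by
          intro j hjm
          rw [hval c j (hj j hjm) χ hχ'.1, hval d j (hj j hjm) χ hχ'.1, hm j, hm' j, he]
          have h5 : (∑ a ∈ Finset.range ℓ, (m a : ℂ) * ζ ^ (a * j)) *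
              (∑ a' ∈ Finset.range ℓ, (m' a' : ℂ) * ζ ^ (a' * j)) =
              ∑ a ∈ Finset.range ℓ, ∑ a' ∈ Finset.range ℓ,
                (m a : ℂ) * (m' a' : ℂ) * ζ ^ ((a + a') * j) := by
            rw [Finset.sum_mul_sum]
            refine Finset.sum_congr rfl fun a _ => Finset.sum_congr rfl fun a' _ => ?_
            rw [add_mul, pow_add]
            ring
          rw [← h5]
          ring
        rw [Finset.sum_congr rfl h4, ← Finset.mul_sum]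
        congr 1
        rw [Finset.sum_comm]
        refine Finset.sum_congr rfl fun a _ => ?_
        rw [Finset.sum_comm]
        refine Finset.sum_congr rfl fun a' _ => ?_
        rw [← Finset.mul_sum, hz]
      rw [h3, mem_QQ]
      refine ⟨((Nat.card G : ℚ) / (Nat.card (B.C (Subgroup.zpowers c)) * e)) *
          ((Nat.card G : ℚ) / (Nat.card (B.C (Subgroup.zpowers d)) * e)) *
          ∑ a ∈ Finset.range ℓ, ∑ a' ∈ Finset.range ℓ,
            (m a : ℚ) * (m' a' : ℚ) * ((z (a + a') : ℤ) : ℚ), ?_⟩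
      push_cast
      rfl
    rw [Finset.sum_congr rfl (fun j hjm => hinv c d j (hj j hjm)), Finset.sum_const,
      Nat.card_Ico, nsmul_eq_mul] at h1
    obtain ⟨q, hq⟩ := mem_QQ.1 h1
    have h2 : ((ℓ - 1 : ℕ) : ℂ) ≠ 0 := by
      have := hℓ.out.two_le
      exact Nat.cast_ne_zero.2 (by omega)
    refine ⟨q / ((ℓ - 1 : ℕ) : ℚ), ?_⟩
    rw [Rat.cast_div, Rat.cast_natCast, eq_div_iff h2, mul_comm]
    exact hq
  have hRM : ∀ c d : V₀, L2 B c d ∈ RM M := by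
    intro c d
    unfold L2
    rw [finsum_mem_eq_finite_toFinset_sum _ hS]
    refine Subring.sum_mem _ fun χ hχ => ?_
    have hχ' : χ ∈ IrrE M B.e := hS.mem_toFinset.1 hχ
    exact (RM M).mul_mem (homr ℓ M hM V₀ E₀ G B hB c χ hχ').1
      (homr ℓ M hM V₀ E₀ G B hB d χ hχ').1
  have hRl : ∀ c d : V₀, ∃ q ∈ SOR.Rl ℓ, L2 B c d = (q : ℂ) := by
    intro c d
    obtain ⟨q, hq⟩ := hrat c d
    exact ⟨q, rat_Rl M hM q (by rw [← hq]; exact hRM c d), hq⟩
  refine ⟨?_, hRl, ?_, hinv, ?_, ?_, ?_, hL, ?_⟩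
  · intro c
    rw [← hL c]
    exact hRl c 1
  · intro c j hj
    rw [← hL (c ^ j), ← hL c]
    have h1 := hinv c 1 j hj
    rwa [one_pow] at h1
  · intro c σ hσ
    unfold L1
    rw [hsig c σ hσ]
  · intro c d σ hσ τ hτ
    unfold L2
    rw [hsig c σ hσ, hsig d τ hτ]
  · intro c d
    unfold L2
    refine finsum_mem_congr rfl fun χ _ => ?_
    rw [mul_comm]
  · unfold L1
    rw [finsum_mem_congr rfl hone, finsum_mem_eq_finite_toFinset_sum _ hS, Finset.sum_const,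
      nsmul_eq_mul, mul_one, Set.ncard_eq_toFinset_card _ hS]

end Pool.Agent.PP.SO.H15
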